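import Mathlib

/-!
# A layered circuit of balanced XOR trees and its local consistency along sequences of bags
-/

namespace H541R2.SL

open Finset

/-- chains: `(a, c)` is the `c`-th chain born at level `a` -/
abbrev J := ℕ × ℕ

/-- positions in a cell: height and index -/
abbrev Pos := ℕ × ℕ

/-- vertices: chain, level, position -/
abbrev D := J × ℕ × Pos

/-- the chain `j` exists at level `l` -/
def LJ (g L l : ℕ) (j : J) : Prop := l ≤ j.1 ∧ j.1 ≤ L ∧ j.2 < g

/-- `v` belongs to the part of the chain `k` at level `l` -/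
def InT (l : ℕ) (k : J) (v : D) : Prop := v.1 = k ∧ v.2.1 = l

/-- the gates inside a cell: a balanced XOR tree of height `e` over `2 ^ e` leaves, the leaf `i < o`
is the column `col j i`, the leaf `o` is private, the other leaves vanish -/
structure Cell (o e : ℕ) (col : J → ℕ → ℕ) (j : J) (y : Pos → ZMod 2) (cols : ℕ → ZMod 2)
    (priv : ZMod 2) : Prop where
  tree : ∀ h p, h < e → p < 2 ^ (e - (h + 1)) → y (h + 1, p) = y (h, 2 * p) + y (h, 2 * p + 1)
  col : ∀ i < o, y (0, i) = cols (col j i)
  pr : y (0, o) = priv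
  zero : ∀ i, o < i → i < 2 ^ e → y (0, i) = 0

theorem Cell.sum {o e : ℕ} {col : J → ℕ → ℕ} {j : J} {ι : Type*} {K : Finset ι}
    {y : ι → Pos → ZMod 2} {cols : ι → ℕ → ZMod 2} {priv : ι → ZMod 2}
    (h : ∀ k ∈ K, Cell o e col j (y k) (cols k) (priv k)) :
    Cell o e col j (fun p => ∑ k ∈ K, y k p) (fun c => ∑ k ∈ K, cols k c)
      (∑ k ∈ K, priv k) := by
  refine ⟨?_, ?_, ?_, ?_⟩
  · intro a p h1 h2
    rw [← Finset.sum_add_distrib]
    exact Finset.sum_congr rfl (fun k hk => (h k hk).tree a p h1 h2)
  · intro c hc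
    exact Finset.sum_congr rfl (fun k hk => (h k hk).col c hc)
  · exact Finset.sum_congr rfl (fun k hk => (h k hk).pr)
  · intro c h1 h2
    exact Finset.sum_eq_zero (fun k hk => (h k hk).zero c h1 h2)

/-- the gates at level `l` are exact -/
def Ex (g o e L : ℕ) (col : J → ℕ → ℕ) (l : ℕ) (X : D → ZMod 2) : Prop :=
  ∀ j, LJ g L l j → Cell o e col j (fun p => X (j, l, p))
    (fun c => X ((l - 1, c), l - 1, (e, 0))) (X (j, l - 1, (e, 0)))

/-- below level `l` the assignment vanishes, at level `l` only roots of chains not met by `B`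
carry a one -/
structure Low (g e L l : ℕ) (B : Finset D) (X : D → ZMod 2) : Prop where
  below : ∀ v : D, v.2.1 < l → X v = 0
  inner : ∀ j i, i ≠ ((e, 0) : Pos) → X (j, l, i) = 0
  root : ∀ j, X (j, l, (e, 0)) ≠ 0 → LJ g L l j ∧ ∀ v ∈ B, ¬ InT l j v

structure Fam (g o e L : ℕ) (col : J → ℕ → ℕ) (m l : ℕ) (k : J) (B : Finset D)
    (X : D → ZMod 2) : Prop where
  low : Low g e L (l - m) B X
  ex : ∀ l', l - m < l' → l' ≤ l → Ex g o e L col l' X
  top : ∀ j, X (j, l, (e, 0)) = if j = k then 1 else 0
  above : ∀ v : D, l < v.2.1 → X v = 0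

/-- cover-freeness of the columns -/
structure CF (g L f o : ℕ) (col : J → ℕ → ℕ) : Prop where
  inj : ∀ j : J, ∀ i < o, ∀ i' < o, col j i = col j i' → i = i'
  lt : ∀ j : J, ∀ i < o, col j i < g
  free : ∀ k : J, k.1 ≤ L → k.2 < g → ∀ A : Finset J, A.card ≤ f → ∀ l : ℕ,
    ∃ i < o, ∀ j ∈ A, j ≠ k → (j.1 ≤ L → j.2 < g → ∀ i' < o, col j i' ≠ col k i) ∧
      j ≠ (l, col k i)

theorem zmod2_ne_zero {a : ZMod 2} (h : a ≠ 0) : a = 1 := by
  revert h; revert a; decide

theorem zmod2_add_self (a : ZMod 2) : a + a = 0 := by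
  revert a; decide

/-- values in the tree from the values at the leaves -/
def tr (lam : ℕ → ZMod 2) (p : Pos) : ZMod 2 := ∑ c ∈ range (2 ^ p.1), lam (p.2 * 2 ^ p.1 + c)

theorem tr_leaf (lam : ℕ → ZMod 2) (c : ℕ) : tr lam (0, c) = lam c := by
  simp [tr]

theorem tr_node (lam : ℕ → ZMod 2) (h p : ℕ) :
    tr lam (h + 1, p) = tr lam (h, 2 * p) + tr lam (h, 2 * p + 1) := by
  simp only [tr]
  rw [show 2 ^ (h + 1) = 2 ^ h + 2 ^ h from by ring, Finset.sum_range_add]
  congr 1
  · refine Finset.sum_congr rfl (fun c _ => ?_)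
    congr 1
    ring
  · refine Finset.sum_congr rfl (fun c _ => ?_)
    congr 1
    ring

theorem tr_root (lam : ℕ → ZMod 2) (e : ℕ) : tr lam (e, 0) = ∑ c ∈ range (2 ^ e), lam c := by
  simp [tr]

theorem tr_zero (lam : ℕ → ZMod 2) (h : ∀ c, lam c = 0) (p : Pos) : tr lam p = 0 := by
  simp [tr, h]

/-- the leaves of a cell -/
def lv (o : ℕ) (col : J → ℕ → ℕ) (j : J) (cols : ℕ → ZMod 2) (priv : ZMod 2) (i : ℕ) : ZMod 2 :=
  if i < o then cols (col j i) else if i = o then priv else 0

theorem cell_tr (o e : ℕ) (col : J → ℕ → ℕ) (j : J) (cols : ℕ → ZMod 2) (priv : ZMod 2) :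
    Cell o e col j (tr (lv o col j cols priv)) cols priv := by
  refine ⟨fun h p _ _ => tr_node _ _ _, ?_, ?_, ?_⟩
  · intro c hc
    rw [tr_leaf]; simp [lv, hc]
  · rw [tr_leaf]; simp [lv]
  · intro c h1 _
    rw [tr_leaf]
    have h2 : ¬ c < o := by omega
    have h3 : c ≠ o := by omega
    simp [lv, h2, h3]

theorem tr_root_eq {o e : ℕ} (hoe : o < 2 ^ e) (col : J → ℕ → ℕ) (j : J) (cols : ℕ → ZMod 2)
    (priv : ZMod 2) :
    tr (lv o col j cols priv) (e, 0) = (∑ i ∈ range o, cols (col j i)) + priv := by
  rw [tr_root]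
  obtain ⟨b, hb⟩ : ∃ b, 2 ^ e = o + (1 + b) := ⟨2 ^ e - o - 1, by omega⟩
  rw [hb, Finset.sum_range_add, Finset.sum_range_add]
  have h1 : ∑ x ∈ range o, lv o col j cols priv x = ∑ i ∈ range o, cols (col j i) := by
    refine Finset.sum_congr rfl (fun c hc => ?_)
    rw [Finset.mem_range] at hc
    simp [lv, hc]
  have h2 : ∑ x ∈ range b, lv o col j cols priv (o + (1 + x)) = 0 := by
    refine Finset.sum_eq_zero (fun c _ => ?_)
    have h3 : ¬ (o + (1 + c) < o) := by omega
    have h4 : o + (1 + c) ≠ o := by omega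
    simp only [lv]
    rw [if_neg h3, if_neg h4]
  rw [h1, h2]
  simp [lv]

open Classical in
theorem step {g o e L f : ℕ} (hoe : o < 2 ^ e) {col : J → ℕ → ℕ} (hCF : CF g L f o col) {l : ℕ}
    {k : J} (hl : 1 ≤ l)
    (hk : LJ g L l k) (F : Finset D) (hF : F.card ≤ f) (hFT : ∀ v ∈ F, ¬ InT l k v) :
    ∃ (K : Finset J) (Y : J → Pos → ZMod 2),
      (∀ j ∈ K, LJ g L (l - 1) j ∧ ∀ v ∈ F, ¬ InT (l - 1) j v) ∧
      (∀ j, LJ g L l j → Cell o e col j (Y j) (fun c => if (l - 1, c) ∈ K then 1 else 0)
        (if j ∈ K then 1 else 0)) ∧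
      (∀ j, Y j (e, 0) = if j = k then 1 else 0) ∧
      (∀ j i, (j, l, i) ∈ F → Y j i = 0) := by
  by_cases hA : ∀ v ∈ F, ¬ InT (l - 1) k v
  · have hne : ∀ c, ((l - 1, c) : J) ≠ k := by
      intro c h
      have h1 : k.1 = l - 1 := by rw [← h]
      have := hk.1
      omega
    refine ⟨{k}, fun j => if LJ g L l j then tr (lv o col j
      (fun c => if (l - 1, c) ∈ ({k} : Finset J) then 1 else 0)
        (if j ∈ ({k} : Finset J) then 1 else 0)) else fun _ => 0, ?_, ?_, ?_, ?_⟩
    · intro j hj
      rw [Finset.mem_singleton] at hj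
      subst hj
      exact ⟨⟨by have := hk.1; omega, hk.2.1, hk.2.2⟩, hA⟩
    · intro j hj
      simp only [hj, if_true]
      exact cell_tr o e col j _ _
    · intro j
      by_cases hj : LJ g L l j
      · simp only [hj, if_true]
        rw [tr_root_eq hoe col j (fun c => if (l - 1, c) ∈ ({k} : Finset J) then 1 else 0)
          (if j ∈ ({k} : Finset J) then 1 else 0)]
        simp [hne]
      · have hjk : j ≠ k := by
          rintro rfl; exact hj hk
        simp [hj, hjk]
    · intro j i hji
      have hjk : j ≠ k := by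
        intro h
        exact hFT _ hji ⟨h, rfl⟩
      by_cases hj : LJ g L l j
      · simp only [hj, if_true]
        apply tr_zero
        intro c
        simp [lv, hne, hjk]
      · simp [hj]
  · obtain ⟨i0, hi0, hcA⟩ := hCF.free k hk.2.1 hk.2.2 (F.image Prod.fst)
      (Finset.card_image_le.trans hF) (l - 1)
    obtain ⟨c, hc⟩ : ∃ c, c = col k i0 := ⟨_, rfl⟩
    rw [← hc] at hcA
    have hcg : c < g := by rw [hc]; exact hCF.lt k i0 hi0
    have hcF : ∀ v ∈ F, v.1 ≠ k → (v.1.1 ≤ L → v.1.2 < g → ∀ i' < o, col v.1 i' ≠ c) ∧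
        v.1 ≠ (l - 1, c) := fun v hv hvk => hcA v.1 (Finset.mem_image_of_mem _ hv) hvk
    set K : Finset J := insert ((l - 1, c) : J)
      (((range (L + 1)) ×ˢ (range g)).filter (fun j => l ≤ j.1 ∧ j ≠ k ∧
        ∃ i < o, col j i = c)) with hK
    have hKmem : ∀ j, LJ g L l j → (j ∈ K ↔ (j ≠ k ∧ ∃ i < o, col j i = c)) := by
      intro j hj
      rw [hK, Finset.mem_insert, Finset.mem_filter, Finset.mem_product, Finset.mem_range,
        Finset.mem_range]
      constructor
      · rintro (h | h)
        · exfalso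
          have h1 : j.1 = l - 1 := by rw [h]
          have := hj.1
          omega
        · exact h.2.2
      · intro h
        exact Or.inr ⟨⟨by have := hj.2.1; omega, hj.2.2⟩, hj.1, h⟩
    have hKc : ∀ i, ((l - 1, i) : J) ∈ K ↔ i = c := by
      intro i
      rw [hK, Finset.mem_insert, Finset.mem_filter]
      constructor
      · rintro (h | h)
        · exact (Prod.mk.inj h).2
        · exfalso
          have := h.2.1
          simp only at this
          omega
      · rintro rfl
        exact Or.inl rfl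
    refine ⟨K, fun j => if LJ g L l j then tr (lv o col j
      (fun i => if (l - 1, i) ∈ K then 1 else 0) (if j ∈ K then 1 else 0))
        else fun _ => 0, ?_, ?_, ?_, ?_⟩
    · intro j hj
      rw [hK, Finset.mem_insert, Finset.mem_filter, Finset.mem_product, Finset.mem_range,
        Finset.mem_range] at hj
      rcases hj with rfl | ⟨⟨h1, h2⟩, h3, h4, i, h5, h6⟩
      · refine ⟨⟨le_refl _, ?_, hcg⟩, ?_⟩
        · show l - 1 ≤ L
          have := hk.1; have := hk.2.1; omega
        · intro v hv hT
          have hne : v.1 ≠ k := by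
            rw [hT.1]
            intro h
            have h1 : k.1 = l - 1 := by rw [← h]
            have := hk.1
            omega
          exact (hcF v hv hne).2 hT.1
      · refine ⟨⟨by omega, by omega, h2⟩, ?_⟩
        intro v hv hT
        have hne : v.1 ≠ k := by rw [hT.1]; exact h4
        have := (hcF v hv hne).1
        rw [hT.1] at this
        exact this (by omega) h2 i h5 h6
    · intro j hj
      simp only [hj, if_true]
      exact cell_tr o e col j _ _
    · intro j
      by_cases hj : LJ g L l j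
      · simp only [hj, if_true]
        rw [tr_root_eq hoe col j (fun i => if (l - 1, i) ∈ K then 1 else 0)
          (if j ∈ K then 1 else 0)]
        simp only [hKc, hKmem j hj]
        have hs : ∑ i ∈ range o, (if col j i = c then (1 : ZMod 2) else 0) =
            if ∃ i < o, col j i = c then 1 else 0 := by
          split_ifs with h
          · obtain ⟨i, hi, hic⟩ := h
            rw [Finset.sum_eq_single i]
            · simp [hic]
            · intro b hb hbi
              rw [Finset.mem_range] at hb
              have : col j b ≠ c := by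
                intro h
                exact hbi (hCF.inj j b hb i hi (h.trans hic.symm))
              simp [this]
            · intro h; exact absurd (Finset.mem_range.2 hi) h
          · push Not at h
            apply Finset.sum_eq_zero
            intro i hi
            rw [Finset.mem_range] at hi
            simp [h i hi]
        rw [hs]
        by_cases hjk : j = k
        · subst hjk
          have : ∃ i < o, col j i = c := ⟨i0, hi0, hc.symm⟩
          simp only [this, if_true, ne_eq, not_true_eq_false, false_and, if_false, add_zero]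
        · by_cases hC : ∃ i < o, col j i = c
          · simp only [hjk, hC, ne_eq, not_false_eq_true, and_self, if_true, if_false]
            decide
          · simp only [hC, and_false, if_false, hjk, add_zero]
      · have hjk : j ≠ k := by
          rintro rfl; exact hj hk
        simp [hj, hjk]
    · intro j i hji
      have hne : j ≠ k := by
        intro h
        exact hFT _ hji ⟨h, rfl⟩
      have h0 := (hcF _ hji hne).1
      simp only at h0
      by_cases hj : LJ g L l j
      · have h1 := h0 hj.2.1 hj.2.2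
        have hjK : j ∉ K := by
          rw [hKmem j hj]
          rintro ⟨-, i', hi', h2⟩
          exact h1 i' hi' h2
        simp only [hj, if_true]
        apply tr_zero
        intro b
        simp only [lv, hKc, hjK, if_false]
        split_ifs with h2 h3
        · exact absurd h3 (h1 b h2)
        · rfl
        · rfl
        · rfl
      · simp [hj]

/-- combination of a band at level `l` with families one level below -/
noncomputable def comb (l : ℕ) (Y : J → Pos → ZMod 2) (K : Finset J) (W : J → D → ZMod 2) :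
    D → ZMod 2 := fun v => (if v.2.1 = l then Y v.1 v.2.2 else 0) + ∑ k' ∈ K, W k' v

open Classical in
theorem fam_comb {g o e L : ℕ} {col : J → ℕ → ℕ} {m l : ℕ} {k : J} (hl : m + 1 ≤ l)
    {K : Finset J} {Y : J → Pos → ZMod 2}
    (hY : ∀ j, LJ g L l j → Cell o e col j (Y j) (fun c => if (l - 1, c) ∈ K then 1 else 0)
        (if j ∈ K then 1 else 0))
    (hYg : ∀ j, Y j (e, 0) = if j = k then 1 else 0)
    {B B' : Finset D} (hB : ∀ v ∈ B, v ∈ B' ∨ v.2.1 = l) {W : J → D → ZMod 2}
    (hW : ∀ k' ∈ K, Fam g o e L col m (l - 1) k' B' (W k')) :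
    Fam g o e L col (m + 1) l k B (comb l Y K W) := by
  have hlm : l - (m + 1) = l - 1 - m := by omega
  have hroot : ∀ j, comb l Y K W (j, l - 1, (e, 0)) = if j ∈ K then 1 else 0 := by
    intro j
    have h1 : ¬ (l - 1 = l) := by omega
    simp only [comb, h1, if_false, zero_add]
    rw [Finset.sum_congr rfl (fun k' hk' => (hW k' hk').top j)]
    simp
  have hlow : ∀ v : D, v.2.1 < l → comb l Y K W v = ∑ k' ∈ K, W k' v := by
    intro v hv
    have h1 : ¬ (v.2.1 = l) := by omega
    simp [comb, h1]
  have hband : ∀ j i, comb l Y K W (j, l, i) = Y j i := by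
    intro j i
    simp only [comb, if_true]
    rw [Finset.sum_eq_zero, add_zero]
    intro k' hk'
    exact (hW k' hk').above _ (by show l - 1 < l; omega)
  refine ⟨⟨?_, ?_, ?_⟩, ?_, ?_, ?_⟩
  · intro v hv
    rw [hlow v (by omega)]
    apply Finset.sum_eq_zero
    intro k' hk'
    exact (hW k' hk').low.below v (by omega)
  · intro j i hi
    rw [hlow _ (by show l - (m + 1) < l; omega), hlm]
    apply Finset.sum_eq_zero
    intro k' hk'
    exact (hW k' hk').low.inner j i hi
  · intro j hj
    rw [hlow _ (by show l - (m + 1) < l; omega), hlm] at hj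
    obtain ⟨k', hk', hne⟩ := Finset.exists_ne_zero_of_sum_ne_zero hj
    obtain ⟨h1, h2⟩ := (hW k' hk').low.root j hne
    rw [hlm]
    refine ⟨h1, ?_⟩
    intro v hv hT
    rcases hB v hv with h | h
    · exact h2 v h hT
    · have := hT.2
      omega
  · intro l' h1 h2 j hj
    rcases eq_or_lt_of_le h2 with rfl | h3
    · have h4 := hY j hj
      have e1 : (fun p => comb l' Y K W (j, l', p)) = Y j := by
        funext p; exact hband j p
      have e2 : (fun c => comb l' Y K W ((l' - 1, c), l' - 1, (e, 0))) =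
          fun c => if (l' - 1, c) ∈ K then 1 else 0 := by
        funext c; exact hroot _
      rw [e1, e2, hroot]
      exact h4
    · have hex : ∀ k' ∈ K, Ex g o e L col l' (W k') := fun k' hk' =>
        (hW k' hk').ex l' (by omega) (by omega)
      have hl1 : l' - 1 < l := by omega
      have h4 := Cell.sum (fun k' hk' => hex k' hk' j hj)
      have e1 : (fun p => comb l Y K W (j, l', p)) = fun p => ∑ k' ∈ K, W k' (j, l', p) := by
        funext p; exact hlow _ h3
      have e2 : (fun c => comb l Y K W ((l' - 1, c), l' - 1, (e, 0))) =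
          fun c => ∑ k' ∈ K, W k' ((l' - 1, c), l' - 1, (e, 0)) := by
        funext c; exact hlow _ hl1
      rw [e1, e2, hlow (j, l' - 1, (e, 0)) hl1]
      exact h4
  · intro j
    rw [hband, hYg]
  · intro v hv
    have h1 : ¬ (v.2.1 = l) := by omega
    simp only [comb, h1, if_false, zero_add]
    apply Finset.sum_eq_zero
    intro k' hk'
    exact (hW k' hk').above v (by omega)

/-- the family statement -/
def Cl (g o e L : ℕ) (col : J → ℕ → ℕ) (b m : ℕ) : Prop :=
  ∀ l k, m ≤ l → LJ g L l k → ∀ (S : Finset D) (B : ℕ → Finset D), (∀ i, S ⊆ B i) →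
    (∀ i, (B i).card ≤ b) → (∀ i, (B i \ S).card ≤ m) → B 0 = S →
    (∃ r, ∀ i, r ≤ i → B i = S) → (∀ v ∈ S, ¬ InT l k v) →
    ∃ X : ℕ → D → ZMod 2,
      (∀ i, Fam g o e L col m l k (B i) (X i)) ∧
      (∀ i, ∀ v ∈ S, X i v = 0) ∧
      (∀ i, ∀ v ∈ B i, v ∈ B (i + 1) → X i v = X (i + 1) v) ∧
      (∀ i, (∀ v ∈ B i, ¬ InT l k v) → ∀ v ∈ B i, X i v = 0)

theorem cl_zero (g o e L : ℕ) (col : J → ℕ → ℕ) (b : ℕ) : Cl g o e L col b 0 := by
  classical
  intro l k _ hk S B hSB _ hBS _ _ hST
  have hBS' : ∀ i, B i ⊆ S := by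
    intro i
    have := hBS i
    rw [Nat.le_zero, Finset.card_eq_zero] at this
    exact Finset.sdiff_eq_empty_iff_subset.1 this
  refine ⟨fun _ v => if v = (k, l, (e, 0)) then 1 else 0, ?_, ?_, ?_, ?_⟩
  · intro i
    refine ⟨⟨?_, ?_, ?_⟩, ?_, ?_, ?_⟩
    · intro v hv
      have : v ≠ (k, l, (e, 0)) := by
        rintro rfl
        simp at hv
      simp [this]
    · intro j i' hi'
      have : ((j, l - 0, i') : D) ≠ (k, l, (e, 0)) := by
        intro h
        exact hi' (congrArg (fun v : D => v.2.2) h)
      simp only [this, if_false]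
    · intro j hj
      have : ((j, l - 0, (e, 0)) : D) = (k, l, (e, 0)) := by
        by_contra h
        simp only [h, if_false] at hj
        exact hj rfl
      have hjk : j = k := congrArg (fun v : D => v.1) this
      subst hjk
      exact ⟨hk, fun v hv => hST v (hBS' i hv)⟩
    · intro l' h1 h2
      omega
    · intro j
      by_cases hjk : j = k
      · subst hjk; simp
      · have : ((j, l, (e, 0)) : D) ≠ (k, l, (e, 0)) := fun h =>
          hjk (congrArg (fun v : D => v.1) h)
        simp only [this, hjk, if_false]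
    · intro v hv
      have : v ≠ (k, l, (e, 0)) := by
        rintro rfl
        simp at hv
      simp [this]
  · intro i v hv
    have : v ≠ (k, l, (e, 0)) := by
      rintro rfl
      exact hST _ hv ⟨rfl, rfl⟩
    simp [this]
  · intro i v _ _
    rfl
  · intro i h v hv
    have : v ≠ (k, l, (e, 0)) := by
      rintro rfl
      exact h _ hv ⟨rfl, rfl⟩
    simp [this]

end H541R2.SL
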