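import Pool.Agent.H541R2.SL.Comb
import Pool.Agent.H541R2.SC.Cover

/-!
# Cover-free families with few columns per member
-/

namespace H541R2.SL

open Finset
open H541R2.SC (ev ev_agree)

open Classical in
theorem exists_CF {q t L f o : ℕ} (hq : q.Prime) (hoq : o ≤ q) (hft : f * t < o) (ht : 1 ≤ t)
    (hL : (L + 1) * (o * q) ≤ q ^ t) :
    ∃ col : J → ℕ → ℕ, CF (o * q) L f o col := by
  have : Fact q.Prime := ⟨hq⟩
  have hq0 : 0 < q := hq.pos
  set E : Finset J := (range (L + 1)) ×ˢ (range (o * q)) with hE
  have hEmem : ∀ j : J, j ∈ E ↔ (j.1 ≤ L ∧ j.2 < o * q) := by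
    intro j
    rw [hE, Finset.mem_product, Finset.mem_range, Finset.mem_range]
    constructor
    · rintro ⟨h1, h2⟩; exact ⟨by omega, h2⟩
    · rintro ⟨h1, h2⟩; exact ⟨by omega, h2⟩
  have hcard : Fintype.card E ≤ Fintype.card (Fin t → ZMod q) := by
    rw [Fintype.card_coe, hE, Finset.card_product, Finset.card_range, Finset.card_range,
      Fintype.card_fun, ZMod.card, Fintype.card_fin]
    exact hL
  obtain ⟨ι⟩ := Function.Embedding.nonempty_of_card_le hcard
  set val : J → ℕ → ℕ := fun j i => if h : j ∈ E then (ev (ι ⟨j, h⟩) ((i : ℕ) : ZMod q)).val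
    else 0 with hval
  have hvlt : ∀ j i, val j i < q := by
    intro j i
    simp only [hval]
    split_ifs
    · exact ZMod.val_lt _
    · exact hq0
  set col : J → ℕ → ℕ := fun j i => q * i + val j i with hcol
  have hdiv : ∀ j i, col j i / q = i := by
    intro j i
    simp only [hcol]
    rw [Nat.mul_add_div hq0, Nat.div_eq_of_lt (hvlt j i), add_zero]
  have hmod : ∀ j i, col j i % q = val j i := by
    intro j i
    simp only [hcol]
    rw [Nat.mul_add_mod, Nat.mod_eq_of_lt (hvlt j i)]
  have hinj : ∀ j j' i i', col j i = col j' i' → i = i' := by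
    intro j j' i i' h
    rw [← hdiv j i, h, hdiv]
  refine ⟨col, ?_, ?_, ?_⟩
  · intro j i _ i' _ h
    exact hinj _ _ _ _ h
  · intro j i hi
    have := hvlt j i
    simp only [hcol]
    have h1 : q * i + q ≤ o * q := by
      calc q * i + q = (i + 1) * q := by ring
        _ ≤ o * q := Nat.mul_le_mul_right _ hi
    omega
  · intro k hk1 hk2 A hA l
    have hkE : k ∈ E := (hEmem k).2 ⟨hk1, hk2⟩
    -- the bad points
    set bad : J → Finset ℕ := fun j =>
      (range o).filter (fun i => ∃ h : j ∈ E, ev (ι ⟨j, h⟩) ((i : ℕ) : ZMod q) =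
        ev (ι ⟨k, hkE⟩) ((i : ℕ) : ZMod q)) ∪ (range o).filter (fun i => col k i = j.2) with hbad
    have hbadc : ∀ j, j ≠ k → (bad j).card ≤ t := by
      intro j hj
      have h1 : ((range o).filter (fun i => ∃ h : j ∈ E, ev (ι ⟨j, h⟩) ((i : ℕ) : ZMod q) =
          ev (ι ⟨k, hkE⟩) ((i : ℕ) : ZMod q))).card < t := by
        by_cases h : j ∈ E
        · refine lt_of_le_of_lt ?_ (ev_agree (c := ι ⟨j, h⟩) (c' := ι ⟨k, hkE⟩) ?_)
          · refine Finset.card_le_card_of_injOn (fun i => ((i : ℕ) : ZMod q)) ?_ ?_
            · intro i hi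
              simp only [Finset.coe_filter, Finset.mem_range, Set.mem_ofPred_eq] at hi
              simp only [Finset.coe_filter, Finset.mem_univ, true_and, Set.mem_ofPred_eq]
              obtain ⟨-, h', h2⟩ := hi
              exact h2
            · intro i hi i' hi' he
              simp only [Finset.coe_filter, Finset.mem_range, Set.mem_ofPred_eq] at hi hi'
              have h3 := (ZMod.natCast_eq_natCast_iff' i i' q).1 he
              rwa [Nat.mod_eq_of_lt (by omega), Nat.mod_eq_of_lt (by omega)] at h3
          · intro h2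
            have := ι.injective h2
            exact hj (by simpa using this)
        · rw [Finset.card_eq_zero.2]
          · omega
          · rw [Finset.filter_eq_empty_iff]
            rintro i _ ⟨h', -⟩
            exact h h'
      have h2 : ((range o).filter (fun i => col k i = j.2)).card ≤ 1 := by
        rw [Finset.card_le_one]
        intro x hx y hy
        rw [Finset.mem_filter] at hx hy
        exact hinj _ _ _ _ (hx.2.trans hy.2.symm)
      have h3 := Finset.card_union_le ((range o).filter (fun i => ∃ h : j ∈ E,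
        ev (ι ⟨j, h⟩) ((i : ℕ) : ZMod q) = ev (ι ⟨k, hkE⟩) ((i : ℕ) : ZMod q)))
        ((range o).filter (fun i => col k i = j.2))
      simp only [hbad]
      omega
    have hex : ∃ x ∈ range o, x ∉ (A.erase k).biUnion bad := by
      by_contra h
      push Not at h
      have h1 : range o ⊆ (A.erase k).biUnion bad := fun x hx => h x hx
      have h2 := Finset.card_le_card h1
      rw [Finset.card_range] at h2
      have h3 : ((A.erase k).biUnion bad).card ≤ (A.erase k).card * t :=
        Finset.card_biUnion_le_card_mul _ _ _ (fun j hj => hbadc j (Finset.ne_of_mem_erase hj))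
      have h4 : (A.erase k).card ≤ f := (Finset.card_erase_le).trans hA
      have h5 := Nat.mul_le_mul_right t h4
      omega
    obtain ⟨x, hxo, hx⟩ := hex
    rw [Finset.mem_range] at hxo
    refine ⟨x, hxo, ?_⟩
    intro j hj hjk
    have hxj : x ∉ bad j := fun h => hx (Finset.mem_biUnion.2
      ⟨j, Finset.mem_erase.2 ⟨hjk, hj⟩, h⟩)
    simp only [hbad, Finset.mem_union, not_or, Finset.mem_filter, Finset.mem_range, hxo,
      true_and] at hxj
    refine ⟨?_, ?_⟩
    · intro h1 h2 i' hi' he
      have h3 := hinj _ _ _ _ he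
      subst h3
      apply hxj.1
      have hjE : j ∈ E := (hEmem j).2 ⟨h1, h2⟩
      refine ⟨hjE, ?_⟩
      have h4 : val j i' = val k i' := by rw [← hmod j i', he, hmod]
      simp only [hval, hjE, hkE, dif_pos] at h4
      exact ZMod.val_injective q h4
    · intro h
      apply hxj.2
      rw [h]

end H541R2.SL
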