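import Pool.Agent.H541R2.SL.Transfer
import Pool.Agent.H541R2.SL.Cover
import Pool.Agent.H541R2.SC.Lower

/-!
# Placement of the vertices, supports, and the lower bound
-/

namespace H541R2.SL

open Finset Equiv
open H541R2.SC (Vx Kind Circuit rounds redepth redepth_symmetric depth' depth'_smul depth'_le)

open Classical in
theorem exists_place {g e L n : ℕ} (h : 2 * ((L + 1) * g * ((L + 1) * ((e + 1) * 2 ^ e))) ≤ n)
    (hn : 0 < n) : Nonempty (Place g e L n) := by
  set E : Finset D := (((range (L + 1)) ×ˢ (range g)) ×ˢ ((range (L + 1)) ×ˢ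
    ((range (e + 1)) ×ˢ (range (2 ^ e))))).filter (fun v => Live g e L v) with hE
  have hEmem : ∀ v : D, v ∈ E ↔ Live g e L v := by
    intro v
    rw [hE, Finset.mem_filter]
    refine ⟨fun h => h.2, fun h => ⟨?_, h⟩⟩
    simp only [Finset.mem_product, Finset.mem_range]
    obtain ⟨⟨h1, h2, h3⟩, h4, h5⟩ := h
    have h6 : 2 ^ (e - v.2.2.1) ≤ 2 ^ e := Nat.pow_le_pow_right (by norm_num) (by omega)
    refine ⟨⟨by omega, h3⟩, by omega, by omega, by omega⟩
  have hcard : E.card ≤ (L + 1) * g * ((L + 1) * ((e + 1) * 2 ^ e)) := by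
    refine (Finset.card_filter_le _ _).trans ?_
    rw [Finset.card_product, Finset.card_product, Finset.card_product, Finset.card_product,
      Finset.card_range, Finset.card_range, Finset.card_range, Finset.card_range]
  have hc : Fintype.card (E × ZMod 2) ≤ Fintype.card (Fin n) := by
    rw [Fintype.card_prod, Fintype.card_coe, ZMod.card, Fintype.card_fin]
    omega
  obtain ⟨ι⟩ := Function.Embedding.nonempty_of_card_le hc
  refine ⟨⟨fun u => if h : ∃ p, ι p = u then some ((Classical.choose h).1.1,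
      (Classical.choose h).2) else none,
    fun v α => if h : v ∈ E then ι (⟨v, h⟩, α) else ⟨0, hn⟩, ?_, ?_⟩⟩
  · intro v α hv
    have hvE : v ∈ E := (hEmem v).2 hv
    have hex : ∃ p, ι p = ι (⟨v, hvE⟩, α) := ⟨_, rfl⟩
    have h1 := ι.injective (Classical.choose_spec hex)
    simp only [hvE, dif_pos, exists_apply_eq_apply]
    rw [h1]
  · intro u v α hu
    by_cases hex : ∃ p, ι p = u
    · simp only [hex, dif_pos, Option.some.injEq, Prod.mk.injEq] at hu
      have h1 := Classical.choose_spec hex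
      obtain ⟨h2, h3⟩ := hu
      have hvE : v ∈ E := by rw [← h2]; exact (Classical.choose hex).1.2
      refine ⟨(hEmem v).1 hvE, ?_⟩
      simp only [hvE, dif_pos]
      rw [← h1]
      congr 1
      refine Prod.ext ?_ h3.symm
      exact Subtype.ext h2.symm
    · simp only [hex, dif_neg, not_false_eq_true] at hu
      exact absurd hu (by simp)

open Classical in
theorem exists_live {g e L : ℕ} (B : Finset D) (hB : B.card < g) :
    ∃ v, Live g e L v ∧ v ∉ B := by
  by_contra h
  push Not at h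
  have h1 : (range g).image (fun i => (((L, i), L, (e, 0)) : D)) ⊆ B := by
    intro v hv
    rw [Finset.mem_image] at hv
    obtain ⟨i, hi, rfl⟩ := hv
    rw [Finset.mem_range] at hi
    exact h _ ⟨⟨le_refl _, le_refl _, hi⟩, le_refl _, by simp⟩
  have h2 := Finset.card_le_card h1
  rw [Finset.card_image_of_injective, Finset.card_range] at h2
  · omega
  · intro i j hij
    simpa using hij

open Classical in
theorem sup_of_support {g e L n : ℕ} (P : Place g e L n) {α : Type*} [MulAction (Perm (Fin n)) α]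
    {q : α} {S : Finset (Fin n)}
    (hS : ∀ π : Perm (Fin n), Perm.sign π = 1 → (∀ x ∈ S, π x = x) → π • q = q) :
    ∃ U : Finset D, U.card ≤ S.card ∧ Sup P q U := by
  refine ⟨S.biUnion (fun u => P.vs (M := Unit) (Sum.inl u)), ?_, ?_⟩
  · exact (Finset.card_biUnion_le_card_mul _ _ 1 (fun u _ => P.vs_card _)).trans (by omega)
  · intro x hx hU
    apply hS _ hx
    intro u hu
    rw [Place.perm_apply]
    cases h : P.dec u with
    | none => exact P.f_none h
    | some p =>
      obtain ⟨v, α⟩ := p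
      have hv : v ∈ S.biUnion (fun u => P.vs (M := Unit) (Sum.inl u)) :=
        Finset.mem_biUnion.2 ⟨u, hu, P.mem_vs h⟩
      rw [P.f_some h, hU v hv, add_zero]
      exact (P.enc_dec u v α h).2

theorem cube_le (N : ℕ) (hN : 10 ≤ N) : N ^ 3 ≤ 2 ^ N := by
  induction N, hN using Nat.le_induction with
  | base => norm_num
  | succ N h ih =>
    rw [pow_succ 2]
    have h1 : 10 * N ^ 2 ≤ N ^ 3 := by
      rw [pow_succ N 2, mul_comm (N ^ 2)]
      exact Nat.mul_le_mul_right _ h
    have h2 : 10 * N ≤ N ^ 2 := by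
      rw [pow_two]
      exact Nat.mul_le_mul_right _ h
    nlinarith

section

variable {n : ℕ} {M G Q : Type*} [MulAction (Perm (Fin n)) G] [MulAction (Perm (Fin n)) Q]

theorem lower [Finite G] [Finite Q] {w d h : ℕ} (hw : 1 ≤ w)
    (hn : 150 * w * (d + 1) * (Nat.log 2 w + 1) ≤ Nat.log 2 n)
    (hh : 150 * w * (d + 1) * (Nat.log 2 w + 1) ≤ h) {s t : M} (hst : s ≠ t)
    (Ci : Circuit (Vx n M) G Q) (hCi : Ci.Symmetric) (hd : Ci.depth Ci.out ≤ d)
    (hdec : ∀ R : Vx n M → Vx n M → Vx n M → Prop, ∃ v, Ci.IsVal R v ∧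
      (v Ci.out ↔ rounds R (Sum.inr s) h (Sum.inr t))) :
    (∃ a : G, n ^ w ≤ (MulAction.orbit (Perm (Fin n)) a).ncard) ∨
      ∃ a : Q, n ^ w ≤ (MulAction.orbit (Perm (Fin n)) a).ncard := by
  by_contra hcon
  push Not at hcon
  obtain ⟨hcG, hcQ⟩ := hcon
  obtain ⟨lam, hlam⟩ : ∃ lam, lam = Nat.log 2 w + 1 := ⟨_, rfl⟩
  rw [← hlam] at hn hh
  have hlam1 : 1 ≤ lam := by omega
  obtain ⟨x, hx⟩ : ∃ x, x = w * (d + 1) := ⟨_, rfl⟩
  have hx1 : 1 ≤ x := by rw [hx]; exact Nat.mul_pos hw (by omega)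
  have hwx : w ≤ x := by rw [hx]; exact Nat.le_mul_of_pos_right _ (by omega)
  have hn' : 150 * (x * lam) ≤ Nat.log 2 n := by
    calc 150 * (x * lam) = 150 * w * (d + 1) * lam := by rw [hx]; ring
      _ ≤ _ := hn
  have hh' : 150 * (x * lam) ≤ h := by
    calc 150 * (x * lam) = 150 * w * (d + 1) * lam := by rw [hx]; ring
      _ ≤ _ := hh
  have hxlam : x ≤ x * lam := Nat.le_mul_of_pos_right _ hlam1
  have hn0 : n ≠ 0 := by
    rintro rfl
    rw [Nat.log_zero_right] at hn'
    omega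
  have hpown : 2 ^ Nat.log 2 n ≤ n := Nat.pow_log_le_self 2 hn0
  -- parameters
  set r := 2 * w + 1 with hr
  set f := 2 * (6 * r) with hf
  set o := f * 2 + 1 with ho
  set e := Nat.log 2 o + 1 with he
  set L := 5 * r * (d + 1) with hL
  have hr3 : r ≤ 3 * w := by omega
  have hr1 : 1 ≤ r := by omega
  have ho1 : o ≤ 73 * w := by omega
  have hoe : o < 2 ^ e := by
    rw [he]
    exact Nat.lt_pow_succ_log_self (by norm_num) o
  have h2e : 2 ^ e ≤ 2 * o := by
    rw [he, pow_succ]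
    have := Nat.pow_log_le_self 2 (show o ≠ 0 by omega)
    omega
  have he1 : e ≤ lam + 7 := by
    have h1 : Nat.log 2 o ≤ Nat.log 2 (w * 2 ^ 7) := Nat.log_mono_right (by omega)
    have h2 : Nat.log 2 (w * 2 ^ 7) = Nat.log 2 w + 7 := by
      have : ∀ k, Nat.log 2 (w * 2 ^ k) = Nat.log 2 w + k := by
        intro k
        induction k with
        | zero => simp
        | succ k ih =>
          rw [pow_succ, ← mul_assoc, Nat.log_mul_base (by norm_num), ih]
          · ring
          · positivity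
      exact this 7
    omega
  have hL1 : L ≤ 15 * x := by
    calc L ≤ 5 * (3 * w) * (d + 1) := by rw [hL]; gcongr
      _ = 15 * x := by rw [hx]; ring
  have hL2 : L + 1 ≤ 16 * x := by omega
  obtain ⟨q, hq, hq1, hq2⟩ := Nat.exists_prime_lt_and_le_two_mul ((L + 1) * o) (by positivity)
  have hoq : o ≤ q := by
    have : 1 * o ≤ (L + 1) * o := Nat.mul_le_mul_right _ (by omega)
    omega
  obtain ⟨A, hA⟩ := exists_CF (q := q) (t := 2) (L := L) (f := f) (o := o) hq hoq (by omega)
    (by norm_num) (by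
      calc (L + 1) * (o * q) = ((L + 1) * o) * q := by ring
        _ ≤ q * q := Nat.mul_le_mul_right _ hq1.le
        _ = q ^ 2 := by ring)
  set g := o * q with hg
  have hgo : o ≤ g := Nat.le_mul_of_pos_right _ hq.pos
  have hgpos : 1 ≤ g := by omega
  have hsize : 2 * ((L + 1) * g * ((L + 1) * ((e + 1) * 2 ^ e))) ≤ n := by
    have he2 : e + 1 ≤ 2 ^ e := Nat.lt_two_pow_self
    have hx2 : x ≤ 2 ^ x := Nat.lt_two_pow_self.le
    have ho2 : o ≤ 73 * x := by omega
    calc 2 * ((L + 1) * g * ((L + 1) * ((e + 1) * 2 ^ e)))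
        ≤ 2 * ((L + 1) * (o * (2 * ((L + 1) * o))) * ((L + 1) * ((2 * o) * (2 * o)))) := by
          rw [hg]
          gcongr
          exact he2.trans h2e
      _ = 16 * (L + 1) ^ 3 * o ^ 4 := by ring
      _ ≤ 16 * (16 * x) ^ 3 * (73 * x) ^ 4 := by gcongr
      _ = 1861107122176 * x ^ 7 := by ring
      _ ≤ 2 ^ 41 * (2 ^ x) ^ 7 := by gcongr; norm_num
      _ = 2 ^ (41 + x * 7) := by rw [pow_add, pow_mul]
      _ ≤ 2 ^ Nat.log 2 n := Nat.pow_le_pow_right (by norm_num) (by omega)
      _ ≤ n := hpown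
  obtain ⟨P⟩ := exists_place (g := g) (e := e) (L := L) hsize (by omega)
  have hsupn : 16 * (w + 1) ^ 2 * (Nat.log 2 n + 1) ≤ n := by
    have h1 : w + 1 ≤ 2 * w := by omega
    have h2 : 150 * w ≤ Nat.log 2 n := by omega
    have h3 := cube_le (Nat.log 2 n) (by omega)
    obtain ⟨N, hN⟩ : ∃ N, N = Nat.log 2 n := ⟨_, rfl⟩
    rw [← hN] at h2 h3 hpown ⊢
    calc 16 * (w + 1) ^ 2 * (N + 1) ≤ 16 * (2 * w) ^ 2 * (2 * N) := by gcongr; omega
      _ = 128 * w ^ 2 * N := by ring
      _ ≤ (150 * w) ^ 2 * N := by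
        gcongr
        rw [mul_pow]
        gcongr
        norm_num
      _ ≤ N ^ 2 * N := by gcongr
      _ = N ^ 3 := by ring
      _ ≤ n := h3.trans hpown
  have hG : ∀ a : G, ∃ U : Finset D, U.card ≤ r ∧ Sup P a U := by
    intro a
    obtain ⟨S, hS1, hS2⟩ := H541R2.SC.exists_support' hw a hsupn (hcG a)
    obtain ⟨U, hU1, hU2⟩ := sup_of_support P hS2
    exact ⟨U, hU1.trans hS1, hU2⟩
  have hQ : ∀ a : Q, ∃ U : Finset D, U.card ≤ r ∧ Sup P a U := by
    intro a
    obtain ⟨S, hS1, hS2⟩ := H541R2.SC.exists_support' hw a hsupn (hcQ a)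
    obtain ⟨U, hU1, hU2⟩ := sup_of_support P hS2
    exact ⟨U, hU1.trans hS1, hU2⟩
  have hlive : ∀ B : Finset D, B.card ≤ 6 * r → ∃ v, Live g e L v ∧ v ∉ B := by
    intro B hB
    exact exists_live B (by omega)
  refine not_decides (P := P) (redepth Ci hCi) (redepth_symmetric Ci hCi)
    (fun π a => depth'_smul Ci a π) hst hr1 hgpos hoe hA hlive hG hQ ?_ (h := h) ?_ hdec
  · have h1 : depth' Ci Ci.out ≤ Ci.depth Ci.out := by
      have := depth'_le Ci Ci.out 1
      rwa [one_smul] at this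
    have h2 : (redepth Ci hCi).depth (redepth Ci hCi).out = depth' Ci Ci.out := rfl
    rw [h2, hL]
    apply Nat.mul_le_mul_left
    omega
  · have he3 : e + 1 ≤ lam + 8 := by omega
    calc 2 + L * (e + 1) + e ≤ 2 + (15 * x) * (lam + 8) + (lam + 7) :=
          Nat.add_le_add (Nat.add_le_add le_rfl (Nat.mul_le_mul hL1 he3)) he1
      _ ≤ 150 * (x * lam) := by nlinarith
      _ ≤ h := hh'

end

end H541R2.SL
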