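import Pool.Agent.H541R2.SC.Upper

/-!
# Symmetric circuits for derivability in few rounds

A shallow AND/OR circuit and a single reachability gate on stacks.
-/

namespace H541R2.SL

open Equiv
open H541R2.SC (Vx Kind Circuit rounds UG upC upC_isVal upC_andOr ugAction boolAction sumMap_inj
  kind_map ch_map finite_UG)

universe u

/-- **Upper bound, AND/OR circuits.** -/
theorem upper (n h : ℕ) (M : Type u) [Finite M] (s t : M) :
    ∃ (G : Type u) (_ : Finite G) (_ : MulAction (Perm (Fin n)) G)
      (_ : MulAction (Perm (Fin n)) Bool) (C : Circuit (Vx n M) G Bool),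
      C.Symmetric ∧ C.AndOr ∧
      (∀ R : Vx n M → Vx n M → Vx n M → Prop, ∃ v, C.IsVal R v ∧
        (v C.out ↔ rounds R (Sum.inr s) h (Sum.inr t))) ∧
      C.depth C.out = 2 * h ∧ Nat.card G ≤ (h + 1) * (n + Nat.card M + 1) ^ 3 := by
  have hV : Nat.card (Vx n M) = n + Nat.card M := by
    rw [Nat.card_sum, Nat.card_fin]
  set N := n + Nat.card M with hN
  let i1 := ugAction n M h
  let i2 := boolAction n
  have hsym : (upC h (Sum.inr s) (Sum.inr t) : Circuit (Vx n M) _ _).Symmetric := by
    refine ⟨?_, ?_, ?_, ?_⟩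
    · intro π g
      exact kind_map s π g
    · rintro π g p q h ⟨h1, h2, h3⟩
      exact ⟨h1, h2, ch_map (sumMap_inj π) rfl h3⟩
    · rintro π g p q h
      exact h
    · intro π
      rfl
  refine ⟨UG (Vx n M) h, finite_UG _ _, i1, i2, upC h (Sum.inr s) (Sum.inr t), hsym,
    upC_andOr _ _ _, ?_, ?_, ?_⟩
  · intro R
    refine ⟨UG.val R (Sum.inr s), upC_isVal _ _ _ R, ?_⟩
    show rounds R (Sum.inr s) (Fin.last h : ℕ) (Sum.inr t) ↔ _
    rw [Fin.val_last]
  · show 2 * ((Fin.last h : Fin (h + 1)) : ℕ) = 2 * h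
    rw [Fin.val_last]
  · rw [Nat.card_congr (UG.equiv (Vx n M) h), Nat.card_sum, Nat.card_sum, Nat.card_prod,
      Nat.card_prod, Nat.card_prod, Nat.card_prod, Nat.card_prod, Nat.card_prod, Nat.card_fin,
      Nat.card_fin, hV]
    have h1 : N * (N * N) + ((h + 1) * N + h * (N * (N * N))) =
        (h + 1) * (N ^ 3 + N) := by ring
    have h2 : N ^ 3 + N ≤ (N + 1) ^ 3 := by
      have : (N + 1) ^ 3 = N ^ 3 + 3 * N ^ 2 + 3 * N + 1 := by ring
      rw [this]
      have := Nat.zero_le (N ^ 2)
      omega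
    rw [h1]
    exact Nat.mul_le_mul_left _ h2

/-! ### one reachability gate -/

/-- gates: inputs, the constant true, the output -/
inductive SG (V : Type u) : Type u
  | inp (a b c : V)
  | tt
  | out

def SG.map {V : Type u} (f : V → V) : SG V → SG V
  | .inp a b c => .inp (f a) (f b) (f c)
  | .tt => .tt
  | .out => .out

def SG.equiv (V : Type u) : SG V ≃ (V × V × V) ⊕ Bool where
  toFun
    | .inp a b c => Sum.inl (a, b, c)
    | .tt => Sum.inr true
    | .out => Sum.inr false
  invFun
    | Sum.inl (a, b, c) => .inp a b c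
    | Sum.inr true => .tt
    | Sum.inr false => .out
  left_inv := by rintro (_ | _ | _) <;> rfl
  right_inv := by rintro (⟨_, _, _⟩ | (_ | _)) <;> rfl

/-- stacks: bounded lists of elements with a number of rounds -/
def St (V : Type u) (h : ℕ) : Type u := {l : List (V × Fin (h + 1)) // l.length ≤ h + 1}

def St.map {V : Type u} {h : ℕ} (f : V → V) (l : St V h) : St V h :=
  ⟨l.1.map (fun p => (f p.1, p.2)), by rw [List.length_map]; exact l.2⟩

def St.fn {V : Type u} {h : ℕ} (l : St V h) : Fin (h + 1) → Option (V × Fin (h + 1)) :=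
  fun k => l.1[(k : ℕ)]?

theorem St.fn_inj {V : Type u} {h : ℕ} : Function.Injective (St.fn : St V h → _) := by
  intro l l' e
  apply Subtype.ext
  apply List.ext_getElem?
  intro i
  by_cases hi : i < h + 1
  · exact congrFun e ⟨i, hi⟩
  · have h1 := l.2
    have h2 := l'.2
    rw [List.getElem?_eq_none (by omega), List.getElem?_eq_none (by omega)]

instance {V : Type u} [Finite V] {h : ℕ} : Finite (St V h) :=
  Finite.of_injective _ St.fn_inj

theorem St.card_le {V : Type u} [Finite V] {h : ℕ} :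
    Nat.card (St V h) ≤ (Nat.card V * (h + 1) + 1) ^ (h + 1) := by
  refine (Nat.card_le_card_of_injective _ St.fn_inj).trans ?_
  rw [Nat.card_fun, Nat.card_fin, Finite.card_option, Nat.card_prod, Nat.card_fin]

/-- pop an occurrence of `s` -/
def Pop {V : Type u} (s : V) (h : ℕ) (p q : List (V × Fin (h + 1))) : Prop :=
  ∃ i, p = (s, i) :: q

/-- replace `a` by `b` and `c` with one round less -/
def Push {V : Type u} (h : ℕ) (a b c : V) (p q : List (V × Fin (h + 1))) : Prop :=
  ∃ (i : ℕ) (hi : i + 1 < h + 1) (r : List (V × Fin (h + 1))), p = (a, ⟨i + 1, hi⟩) :: r ∧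
    q = (b, ⟨i, by omega⟩) :: (c, ⟨i, by omega⟩) :: r

/-- the circuit with one reachability gate -/
noncomputable def stC {V : Type u} (h : ℕ) (s t : V) : Circuit V (SG V) (St V h) where
  kind
    | .inp a b c => .atom a b c
    | .tt => .walk (fun _ => True)
    | .out => .walk (fun N => ∃ k, 1 ≤ N k)
  wire g p q g' := g = .out ∧ ((g' = .tt ∧ Pop s h p.1 q.1) ∨
    ∃ a b c, g' = .inp a b c ∧ Push h a b c p.1 q.1)
  ends _ p q := p.1 = [(t, Fin.last h)] ∧ q.1 = []
  depth
    | .inp _ _ _ => 0
    | .tt => 0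
    | .out => 1
  out := .out
  wire_depth := by
    rintro g p q g' ⟨rfl, (⟨rfl, -⟩ | ⟨a, b, c, rfl, -⟩)⟩ <;> exact Nat.zero_lt_one

/-- the arcs that are present -/
def Arc {V : Type u} (R : V → V → V → Prop) (s : V) (h : ℕ) (p q : St V h) : Prop :=
  Pop s h p.1 q.1 ∨ ∃ a b c, R a b c ∧ Push h a b c p.1 q.1

theorem arc_sound {V : Type u} {R : V → V → V → Prop} {s : V} {h : ℕ} {p q : St V h}
    (hq : q.1 = []) (hpq : Relation.ReflTransGen (Arc R s h) p q) :
    ∀ x ∈ p.1, rounds R s x.2 x.1 := by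
  induction hpq using Relation.ReflTransGen.head_induction_on with
  | refl => rw [hq]; simp
  | head hpr _ ih =>
    rcases hpr with ⟨i, hi⟩ | ⟨a, b, c, hR, i, hi, r, hp, hr⟩
    · rw [hi]
      intro x hx
      rcases List.mem_cons.1 hx with rfl | hx
      · show rounds R s i s
        cases (i : ℕ) with
        | zero => rfl
        | succ j => exact Or.inl rfl
      · exact ih x hx
    · rw [hp]
      rw [hr] at ih
      intro x hx
      rcases List.mem_cons.1 hx with rfl | hx
      · show rounds R s (i + 1) a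
        exact Or.inr ⟨b, c, hR, ih (b, ⟨i, by omega⟩) (by simp), ih (c, ⟨i, by omega⟩) (by simp)⟩
      · exact ih x (by simp [hx])

theorem arc_complete {V : Type u} {R : V → V → V → Prop} {s : V} {h : ℕ} :
    ∀ (i : ℕ) (hi : i < h + 1) (a : V) (r : List (V × Fin (h + 1))) (hr : r.length + i ≤ h),
      rounds R s i a → Relation.ReflTransGen (Arc R s h)
        ⟨(a, ⟨i, hi⟩) :: r, by rw [List.length_cons]; omega⟩ ⟨r, by omega⟩ := by
  intro i
  induction i with
  | zero =>
    intro hi a r hr ha
    have ha' : a = s := ha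
    subst ha'
    exact Relation.ReflTransGen.single (Or.inl ⟨_, rfl⟩)
  | succ i ih =>
    intro hi a r hr ha
    rcases ha with ha | ⟨b, c, hR, hb, hc⟩
    · subst ha
      exact Relation.ReflTransGen.single (Or.inl ⟨_, rfl⟩)
    · have h1 := ih (by omega) b ((c, ⟨i, by omega⟩) :: r) (by
        rw [List.length_cons]; omega) hb
      have h2 := ih (by omega) c r (by omega) hc
      exact Relation.ReflTransGen.head (Or.inr ⟨a, b, c, hR, i, hi, r, rfl, rfl⟩) (h1.trans h2)

/-- walks and reachability -/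
theorem walk_iff {V G Q : Type u} [Finite G] [Finite Q] (C : Circuit V G Q) (v : G → Prop)
    (g : G) : (∃ k, 1 ≤ (C.walks v g k).ncard) ↔
      ∃ p q, C.ends g p q ∧
        Relation.ReflTransGen (fun p q => ∃ g', C.wire g p q g' ∧ v g') p q := by
  constructor
  · rintro ⟨k, hk⟩
    have hne : (C.walks v g k).Nonempty := by
      rw [Set.nonempty_iff_ne_empty]
      intro h
      rw [h, Set.ncard_empty] at hk
      omega
    obtain ⟨w, hw1, hw2⟩ := hne
    refine ⟨_, _, hw1, ?_⟩
    have key : ∀ j (hj : j < k + 1), Relation.ReflTransGen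
        (fun p q => ∃ g', C.wire g p q g' ∧ v g') (w.1 0) (w.1 ⟨j, hj⟩) := by
      intro j
      induction j with
      | zero => intro hj; exact Relation.ReflTransGen.refl
      | succ j ih =>
        intro hj
        have h1 := hw2 ⟨j, by omega⟩
        exact (ih (by omega)).tail ⟨_, h1.1, h1.2⟩
    exact key k (Nat.lt_succ_self k)
  · rintro ⟨p, q, he, hr⟩
    have key : ∃ k, ∃ w : (Fin (k + 1) → Q) × (Fin k → G), w.1 0 = p ∧ w.1 (Fin.last k) = q ∧
        ∀ i : Fin k, C.wire g (w.1 i.castSucc) (w.1 i.succ) (w.2 i) ∧ v (w.2 i) := by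
      clear he
      induction hr using Relation.ReflTransGen.head_induction_on with
      | refl => exact ⟨0, (fun _ => q, Fin.elim0), rfl, rfl, fun i => i.elim0⟩
      | @head p p' hpp _ ih =>
        obtain ⟨k, w, h1, h2, h3⟩ := ih
        obtain ⟨g', hg1, hg2⟩ := hpp
        refine ⟨k + 1, (Fin.cons p w.1, Fin.cons g' w.2), rfl, ?_, ?_⟩
        · show (Fin.cons p w.1 : Fin (k + 1 + 1) → Q) (Fin.last (k + 1)) = q
          rw [← Fin.succ_last, Fin.cons_succ]
          exact h2
        · intro i
          refine Fin.cases ?_ ?_ i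
          · show C.wire g p (w.1 0) g' ∧ v g'
            rw [h1]
            exact ⟨hg1, hg2⟩
          · intro j
            show C.wire g ((Fin.cons p w.1 : Fin (k + 1 + 1) → Q) j.succ.castSucc)
              ((Fin.cons p w.1 : Fin (k + 1 + 1) → Q) j.succ.succ) (w.2 j) ∧ v (w.2 j)
            rw [← Fin.succ_castSucc, Fin.cons_succ, Fin.cons_succ]
            exact h3 j
    obtain ⟨k, w, h1, h2, h3⟩ := key
    refine ⟨k, ?_⟩
    rw [Nat.succ_le_iff, Set.ncard_pos]
    exact ⟨w, by rw [h1, h2]; exact he, h3⟩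

theorem stC_decides {V : Type u} [Finite V] (h : ℕ) (s t : V) (R : V → V → V → Prop) :
    ∃ v, (stC h s t).IsVal R v ∧ (v (stC h s t).out ↔ rounds R s h t) := by
  have : Finite (SG V) := Finite.of_equiv _ (SG.equiv V).symm
  refine ⟨fun g => match g with
    | .inp a b c => R a b c
    | .tt => True
    | .out => rounds R s h t, ?_, Iff.rfl⟩
  intro g
  cases g with
  | inp a b c => exact Iff.rfl
  | tt => exact Iff.rfl
  | out =>
    show rounds R s h t ↔ ∃ k, 1 ≤ _
    rw [walk_iff]
    have harc : ∀ p q : St V h, (∃ g' : SG V, (stC h s t).wire .out p q g' ∧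
        (match g' with
          | .inp a b c => R a b c
          | .tt => True
          | .out => rounds R s h t)) ↔ Arc R s h p q := by
      intro p q
      constructor
      · rintro ⟨g', ⟨-, (⟨rfl, h1⟩ | ⟨a, b, c, rfl, h1⟩)⟩, h2⟩
        · exact Or.inl h1
        · exact Or.inr ⟨a, b, c, h2, h1⟩
      · rintro (h1 | ⟨a, b, c, h2, h1⟩)
        · exact ⟨.tt, ⟨rfl, Or.inl ⟨rfl, h1⟩⟩, trivial⟩
        · exact ⟨.inp a b c, ⟨rfl, Or.inr ⟨a, b, c, rfl, h1⟩⟩, h2⟩
    have hrel : (fun p q : St V h => ∃ g' : SG V, (stC h s t).wire .out p q g' ∧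
        (match g' with
          | .inp a b c => R a b c
          | .tt => True
          | .out => rounds R s h t)) = Arc R s h := by
      funext p q
      exact propext (harc p q)
    constructor
    · intro hr
      refine ⟨⟨[(t, Fin.last h)], by simp⟩, ⟨[], by simp⟩, ⟨rfl, rfl⟩, ?_⟩
      rw [hrel]
      exact arc_complete h (Nat.lt_succ_self h) t [] (by simp) hr
    · rintro ⟨p, q, ⟨h1, h2⟩, h3⟩
      rw [hrel] at h3
      have := arc_sound h2 h3 (t, Fin.last h) (by rw [h1]; simp)
      simpa using this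

section symmetric

variable {n : ℕ} {M : Type u}

/-- the action on the gates -/
@[instance_reducible]
def sgAction (n : ℕ) (M : Type u) : MulAction (Perm (Fin n)) (SG (Vx n M)) where
  smul π g := g.map (Sum.map π id)
  one_smul g := by
    have h : (Sum.map (⇑(1 : Perm (Fin n))) (id : M → M)) = id := by
      funext x; cases x <;> rfl
    show g.map (Sum.map (⇑(1 : Perm (Fin n))) id) = g
    rw [h]
    cases g <;> rfl
  mul_smul π τ g := by
    have h : ∀ x : Vx n M, Sum.map (⇑(π * τ)) id x = Sum.map π id (Sum.map τ id x) := by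
      intro x; cases x <;> rfl
    show g.map (Sum.map (⇑(π * τ)) id) = (g.map (Sum.map τ id)).map (Sum.map π id)
    cases g <;> simp only [SG.map, h]

/-- the action on the stacks -/
@[instance_reducible]
def stAction (n : ℕ) (M : Type u) (h : ℕ) : MulAction (Perm (Fin n)) (St (Vx n M) h) where
  smul π l := l.map (Sum.map π id)
  one_smul l := by
    have h : (Sum.map (⇑(1 : Perm (Fin n))) (id : M → M)) = id := by
      funext x; cases x <;> rfl
    show l.map (Sum.map (⇑(1 : Perm (Fin n))) id) = l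
    rw [h]
    apply Subtype.ext
    simp [St.map]
  mul_smul π τ l := by
    have h : ∀ x : Vx n M, Sum.map (⇑(π * τ)) id x = Sum.map π id (Sum.map τ id x) := by
      intro x; cases x <;> rfl
    show l.map (Sum.map (⇑(π * τ)) id) = (l.map (Sum.map τ id)).map (Sum.map π id)
    apply Subtype.ext
    simp only [St.map, List.map_map]
    congr 1
    funext x
    simp only [Function.comp, h]

end symmetric

/-- The output is a reachability gate whose arcs are switched by inputs and constants. -/
def OneReach {V G Q : Type*} (C : Circuit V G Q) : Prop :=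
  C.kind C.out = .walk (fun N => ∃ k, 1 ≤ N k) ∧ ∀ g p q g', C.wire g p q g' →
    g = C.out ∧ ((∃ a b c, C.kind g' = .atom a b c) ∨ C.kind g' = .walk (fun _ => True))

/-- **Upper bound, one reachability gate.** -/
theorem upper' (n h : ℕ) (M : Type u) [Finite M] (s t : M) :
    ∃ (G Q : Type u) (_ : Finite G) (_ : Finite Q) (_ : MulAction (Perm (Fin n)) G)
      (_ : MulAction (Perm (Fin n)) Q) (C : Circuit (Vx n M) G Q),
      C.Symmetric ∧ OneReach C ∧
      (∀ R : Vx n M → Vx n M → Vx n M → Prop, ∃ v, C.IsVal R v ∧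
        (v C.out ↔ rounds R (Sum.inr s) h (Sum.inr t))) ∧
      C.depth C.out = 1 ∧ Nat.card G ≤ (n + Nat.card M) ^ 3 + 2 ∧
      Nat.card Q ≤ ((n + Nat.card M) * (h + 1) + 1) ^ (h + 1) := by
  have hV : Nat.card (Vx n M) = n + Nat.card M := by
    rw [Nat.card_sum, Nat.card_fin]
  let i1 := sgAction n M
  let i2 := stAction n M h
  refine ⟨SG (Vx n M), St (Vx n M) h, Finite.of_equiv _ (SG.equiv _).symm, inferInstance, i1, i2,
    stC h (Sum.inr s) (Sum.inr t), ?_, ⟨rfl, ?_⟩, ?_, rfl, ?_, ?_⟩
  · refine ⟨?_, ?_, ?_, ?_⟩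
    · intro π g
      cases g <;> rfl
    · rintro π g p q g' ⟨rfl, h2⟩
      refine ⟨rfl, ?_⟩
      rcases h2 with ⟨rfl, i, h3⟩ | ⟨a, b, c, rfl, i, hi, r, h3, h4⟩
      · left
        refine ⟨rfl, i, ?_⟩
        show p.1.map (fun x => (Sum.map π id x.1, x.2)) = (Sum.inr s, i) ::
          q.1.map (fun x => (Sum.map π id x.1, x.2))
        rw [h3]
        rfl
      · right
        refine ⟨Sum.map π id a, Sum.map π id b, Sum.map π id c, rfl, i, hi,
          r.map (fun x => (Sum.map π id x.1, x.2)), ?_, ?_⟩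
        · show p.1.map (fun x => (Sum.map π id x.1, x.2)) = _
          rw [h3]; rfl
        · show q.1.map (fun x => (Sum.map π id x.1, x.2)) = _
          rw [h4]; rfl
    · rintro π g p q ⟨h1, h2⟩
      refine ⟨?_, ?_⟩
      · show p.1.map (fun x => (Sum.map π id x.1, x.2)) = _
        rw [h1]; rfl
      · show q.1.map (fun x => (Sum.map π id x.1, x.2)) = _
        rw [h2]; rfl
    · intro π
      rfl
  · rintro g p q g' ⟨rfl, h2⟩
    refine ⟨rfl, ?_⟩
    rcases h2 with ⟨rfl, -⟩ | ⟨a, b, c, rfl, -⟩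
    · exact Or.inr rfl
    · exact Or.inl ⟨a, b, c, rfl⟩
  · intro R
    exact stC_decides h _ _ R
  · rw [Nat.card_congr (SG.equiv (Vx n M)), Nat.card_sum, Nat.card_prod, Nat.card_prod, hV,
      Nat.card_eq_fintype_card (α := Bool), Fintype.card_bool]
    apply le_of_eq
    ring
  · have := St.card_le (V := Vx n M) (h := h)
    rwa [hV] at this

end H541R2.SL
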