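import Pool.Agent.H541R2.SL.Cl

/-!
# Witnesses and their propagation
-/

namespace H541R2.SL

open Finset

/-- `X` looks like a correct evaluation with output one on the bag `B`, down to level `l` -/
structure Wit (g o e L : ℕ) (col : J → ℕ → ℕ) (l : ℕ) (B : Finset D) (X : D → ZMod 2) : Prop where
  low : Low g e L l B X
  ex : ∀ l', l < l' → l' ≤ L → Ex g o e L col l' X
  top : X ((L, 0), L, (e, 0)) = 1

open Classical in
theorem pm {g o e L b : ℕ} (hoe : o < 2 ^ e) {col : J → ℕ → ℕ}
    (hCF : CF g L (2 * b) o col) {l m : ℕ} (hml : m ≤ l)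
    (hl : l ≤ L) {S : Finset D} {X : D → ZMod 2} (hX : Wit g o e L col l S X) {B : ℕ → Finset D}
    (hSB : ∀ i, S ⊆ B i) (hb : ∀ i, (B i).card ≤ b) (hBS : ∀ i, (B i \ S).card ≤ m)
    (h0 : B 0 = S) (hev : ∃ r, ∀ i, r ≤ i → B i = S) :
    ∃ Z : ℕ → D → ZMod 2, (∀ i, Wit g o e L col (l - m) (B i) (Z i)) ∧ (∀ i, ∀ v ∈ S, Z i v = X v) ∧
      (∀ i, ∀ v ∈ B i, v ∈ B (i + 1) → Z i v = Z (i + 1) v) := by
  set K : Finset J := ((range (L + 1)) ×ˢ (range g)).filter (fun k => X (k, l, (e, 0)) ≠ 0) with hK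
  have hKmem : ∀ j, j ∈ K ↔ X (j, l, (e, 0)) ≠ 0 := by
    intro j
    rw [hK, Finset.mem_filter, Finset.mem_product, Finset.mem_range, Finset.mem_range]
    refine ⟨fun h => h.2, fun h => ⟨?_, h⟩⟩
    have := (hX.low.root j h).1
    exact ⟨by have := this.2.1; omega, this.2.2⟩
  have h1 : ∀ k : J, ∃ W : ℕ → D → ZMod 2, k ∈ K →
      (∀ i, Fam g o e L col m l k (B i) (W i)) ∧
      (∀ i, ∀ v ∈ S, W i v = 0) ∧
      (∀ i, ∀ v ∈ B i, v ∈ B (i + 1) → W i v = W (i + 1) v) := by
    intro k
    by_cases hk : k ∈ K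
    · obtain ⟨h2, h3⟩ := hX.low.root k ((hKmem k).1 hk)
      obtain ⟨W, hW1, hW2, hW3, -⟩ := cl hoe hCF m l k hml h2 S B hSB hb hBS h0 hev h3
      exact ⟨W, fun _ => ⟨hW1, hW2, hW3⟩⟩
    · exact ⟨fun _ _ => 0, fun h => absurd h hk⟩
  choose W hW using h1
  set Z : ℕ → D → ZMod 2 := fun i v => (if l < v.2.1 then X v else 0) + ∑ k ∈ K, W k i v with hZ
  have hroot : ∀ i j, Z i (j, l, (e, 0)) = X (j, l, (e, 0)) := by
    intro i j
    have h2 : ¬ (l < l) := lt_irrefl l
    simp only [hZ, h2, if_false, zero_add]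
    rw [Finset.sum_congr rfl (fun k hk => ((hW k hk).1 i).top j)]
    simp only [Finset.sum_ite_eq, hKmem]
    split_ifs with h
    · exact (zmod2_ne_zero h).symm
    · push Not at h
      exact h.symm
  have hhigh : ∀ i v, l < v.2.1 → Z i v = X v := by
    intro i v hv
    simp only [hZ, hv, if_true]
    rw [Finset.sum_eq_zero, add_zero]
    intro k hk
    exact ((hW k hk).1 i).above v hv
  have hlow : ∀ i v, v.2.1 ≤ l → Z i v = ∑ k ∈ K, W k i v := by
    intro i v hv
    have : ¬ (l < v.2.1) := by omega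
    simp [hZ, this]
  refine ⟨Z, ?_, ?_, ?_⟩
  · intro i
    refine ⟨⟨?_, ?_, ?_⟩, ?_, ?_⟩
    · intro v hv
      rw [hlow i v (by omega)]
      exact Finset.sum_eq_zero (fun k hk => ((hW k hk).1 i).low.below v hv)
    · intro j i' hi'
      rw [hlow i _ (by show l - m ≤ l; omega)]
      exact Finset.sum_eq_zero (fun k hk => ((hW k hk).1 i).low.inner j i' hi')
    · intro j hj
      rw [hlow i _ (by show l - m ≤ l; omega)] at hj
      obtain ⟨k, hk, hne⟩ := Finset.exists_ne_zero_of_sum_ne_zero hj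
      exact ((hW k hk).1 i).low.root j hne
    · intro l' h2 h3 j hj
      rcases lt_trichotomy l' (l + 1) with h4 | h4 | h4
      · -- inside the new part
        have hex : ∀ k ∈ K, Ex g o e L col l' (W k i) := fun k hk =>
          ((hW k hk).1 i).ex l' h2 (by omega)
        have h5 := Cell.sum (fun k hk => hex k hk j hj)
        have e1 : (fun p => Z i (j, l', p)) = fun p => ∑ k ∈ K, W k i (j, l', p) := by
          funext p; exact hlow i _ (by show l' ≤ l; omega)
        have e2 : (fun c => Z i ((l' - 1, c), l' - 1, (e, 0))) =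
            fun c => ∑ k ∈ K, W k i ((l' - 1, c), l' - 1, (e, 0)) := by
          funext c; exact hlow i _ (by show l' - 1 ≤ l; omega)
        rw [e1, e2, hlow i (j, l' - 1, (e, 0)) (by show l' - 1 ≤ l; omega)]
        exact h5
      · subst h4
        have hex := hX.ex (l + 1) (by omega) h3 j hj
        simp only [Nat.add_sub_cancel] at hex ⊢
        have e1 : (fun p => Z i (j, l + 1, p)) = fun p => X (j, l + 1, p) := by
          funext p; exact hhigh i _ (by show l < l + 1; omega)
        have e2 : (fun c => Z i ((l, c), l, (e, 0))) = fun c => X ((l, c), l, (e, 0)) := by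
          funext c; exact hroot i _
        rw [e1, e2, hroot]
        exact hex
      · have hex := hX.ex l' (by omega) h3 j hj
        have e1 : (fun p => Z i (j, l', p)) = fun p => X (j, l', p) := by
          funext p; exact hhigh i _ (by show l < l'; omega)
        have e2 : (fun c => Z i ((l' - 1, c), l' - 1, (e, 0))) =
            fun c => X ((l' - 1, c), l' - 1, (e, 0)) := by
          funext c; exact hhigh i _ (by show l < l' - 1; omega)
        rw [e1, e2, hhigh i _ (by show l < l' - 1; omega)]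
        exact hex
    · rcases eq_or_lt_of_le hl with h2 | h2
      · subst h2
        rw [hroot]; exact hX.top
      · rw [hhigh i _ h2]; exact hX.top
  · intro i v hv
    by_cases h2 : l < v.2.1
    · exact hhigh i v h2
    · rw [hlow i v (by omega), Finset.sum_eq_zero (fun k hk => (hW k hk).2.1 i v hv)]
      rcases eq_or_lt_of_le (not_lt.1 h2) with h3 | h3
      · obtain ⟨j, l', i'⟩ := v
        simp only at h3
        subst h3
        by_cases h4 : i' = ((e, 0) : Pos)
        · subst h4
          by_contra h5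
          exact (hX.low.root j (Ne.symm h5)).2 _ hv ⟨rfl, rfl⟩
        · exact (hX.low.inner j i' h4).symm
      · exact (hX.low.below v h3).symm
  · intro i v hv hv'
    simp only [hZ]
    congr 1
    exact Finset.sum_congr rfl (fun k hk => (hW k hk).2.2 i v hv hv')

open Classical in
/-- one further bag -/
theorem pm_one {g o e L b : ℕ} (hoe : o < 2 ^ e) {col : J → ℕ → ℕ}
    (hCF : CF g L (2 * b) o col) {l m : ℕ} (hml : m ≤ l)
    (hl : l ≤ L) {S : Finset D} {X : D → ZMod 2} (hX : Wit g o e L col l S X) {U : Finset D}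
    (hSU : S ⊆ U) (hb : U.card ≤ b) (hUS : (U \ S).card ≤ m) :
    ∃ Z : D → ZMod 2, Wit g o e L col (l - m) U Z ∧ (∀ v ∈ S, Z v = X v) := by
  have a1 : ∀ i : ℕ, S ⊆ (fun i : ℕ => if i = 1 then U else S) i := by
    intro i
    by_cases h : i = 1
    · simp [h, hSU]
    · simp [h]
  have a2 : ∀ i : ℕ, ((fun i : ℕ => if i = 1 then U else S) i).card ≤ b := by
    intro i
    by_cases h : i = 1
    · simp [h, hb]
    · simp only [h, if_false]
      exact (Finset.card_le_card hSU).trans hb
  have a3 : ∀ i : ℕ, ((fun i : ℕ => if i = 1 then U else S) i \ S).card ≤ m := by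
    intro i
    by_cases h : i = 1
    · simp [h, hUS]
    · simp [h]
  obtain ⟨Z, h1, h2, -⟩ := pm hoe hCF hml hl hX (B := fun i => if i = 1 then U else S) a1 a2 a3
    (by simp) ⟨2, fun i hi => by
      have : i ≠ 1 := by omega
      simp [this]⟩
  refine ⟨Z 1, ?_, h2 1⟩
  have := h1 1
  simpa using this

theorem wit_init {g L : ℕ} (o e : ℕ) (col : J → ℕ → ℕ) (hg : 0 < g) :
    Wit g o e L col L ∅ (fun v => if v = ((L, 0), L, (e, 0)) then 1 else 0) := by
  refine ⟨⟨?_, ?_, ?_⟩, ?_, ?_⟩
  · intro v hv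
    have : v ≠ ((L, 0), L, (e, 0)) := by
      rintro rfl
      simp at hv
    simp [this]
  · intro j i hi
    have : ((j, L, i) : D) ≠ ((L, 0), L, (e, 0)) := by
      intro h
      simp only [Prod.mk.injEq] at h
      exact hi h.2.2
    simp only [this, if_false]
  · intro j hj
    have : ((j, L, (e, 0)) : D) = ((L, 0), L, (e, 0)) := by
      by_contra h
      simp only [h, if_false] at hj
      exact hj rfl
    simp only [Prod.mk.injEq] at this
    obtain ⟨rfl, -⟩ := this
    exact ⟨⟨le_refl _, le_refl _, hg⟩, by simp⟩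
  · intro l' h1 h2
    omega
  · simp

end H541R2.SL
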